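import Pool.Agent.Y723.PJ.Mak
import Pool.Agent.TH344.PW.Stm
import Pool.Agent.TH841.PT.SymM

/-!
# PW-MAK: the main average with the weight
-/

set_option autoImplicit false

namespace Pool.Agent.Y919.PW

open Finset Polynomial Pool.Agent.W262.RK Pool.Agent.W307.RT Pool.Agent.W307.RS
open Pool.Agent.TH841.PT Pool.Agent.TH344.JG Pool.Agent.TH344.PJ Pool.Agent.TH344.PW
open Pool.Agent.Y723.PJ

open Pool.Agent.H474R2.PG (rho)

section

variable {J : Type} [Fintype J] [DecidableEq J] {n : ℕ}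

lemma toPn {u : Fin n → ℤ[X]} {κ : PR n → ℤ} {cls : J → PR n} {f : J → ℤ[X]}
    (h : PenB u κ cls f) : Pn u κ cls f := ⟨h.irr, h.ne, h.fac⟩

/-- the number of the members of a class -/
def nu (cls : J → PR n) (c : PR n) : ℕ := (univ.filter (fun j => cls j = c)).card

lemma nu_pos {cls : J → PR n} (h : ∀ c, ∃ j, cls j = c) (c : PR n) : 0 < nu cls c := by
  obtain ⟨j, hj⟩ := h c
  exact card_pos.2 ⟨j, mem_filter.2 ⟨mem_univ _, hj⟩⟩

/-- the row sums -/
lemma row_one {cls : J → PR n} (h : ∀ c, ∃ j, cls j = c) {A : PR n → PR n → ℝ}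
    (hA : ∀ c, ∑ c', A c c' = nu cls c) (j : J) :
    ∑ l, A (cls j) (cls l) / (nu cls (cls j) * nu cls (cls l)) = 1 := by
  have h0 : ∀ c, (nu cls c : ℝ) ≠ 0 := fun c => by
    have := nu_pos h c
    positivity
  rw [← sum_fiberwise univ cls]
  have h1 : ∀ c ∈ (univ : Finset (PR n)), ∑ l ∈ univ.filter (fun l => cls l = c),
      A (cls j) (cls l) / (nu cls (cls j) * nu cls (cls l) : ℝ) =
        A (cls j) c / nu cls (cls j) := by
    intro c _
    have h2 : ∀ l ∈ univ.filter (fun l => cls l = c),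
        A (cls j) (cls l) / (nu cls (cls j) * nu cls (cls l) : ℝ) =
          A (cls j) c / (nu cls (cls j) * nu cls c) := by
      intro l hl
      rw [(mem_filter.1 hl).2]
    rw [sum_congr rfl h2, sum_const, nsmul_eq_mul]
    change (nu cls c : ℝ) * _ = _
    have h3 := h0 c
    have h4 := h0 (cls j)
    field_simp
  rw [sum_congr rfl h1, ← sum_div, hA, div_self (h0 _)]

/-- merging the variables and the weight -/
lemma nn_merge {ι Θ : Type} [Fintype ι] [DecidableEq ι] [Fintype Θ] [DecidableEq Θ]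
    {cl : ι → J} {z y : ℕ} {d : ι × Θ → ℕ} (hd : d ∈ Tup (ι × Θ) z y) :
    Pool.Agent.TH344.DT.nn cl (Pool.Agent.TH344.DT.om (fun i => ∏ θ, d (i, θ))) =
      Pool.Agent.TH344.DT.nn (fun x : ι × Θ => cl x.1) (Pool.Agent.TH344.DT.om d) := by
  funext j
  have h0 := hd
  unfold Tup at h0
  rw [mem_filter, Fintype.mem_piFinset] at h0
  unfold Pool.Agent.TH344.DT.nn Pool.Agent.TH344.DT.om
  have h1 : ∀ i : ι, (∏ θ, d (i, θ)).primeFactors.card = ∑ θ, (d (i, θ)).primeFactors.card := by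
    intro i
    refine Pool.Agent.TH344.JG.Maf.card_pf_prod univ (fun θ => d (i, θ))
      (fun θ _ => Tup_ne hd _) fun θ _ θ' _ hne => ?_
    exact h0.2 _ _ fun h => hne (Prod.mk.inj h).2
  simp only [h1]
  rw [← sum_product']
  refine sum_congr ?_ fun x _ => rfl
  ext x
  simp

end

theorem makb_of (hatw : S_ATSW) (hcmb : S_CMBB) (hmer : MERGE) (htw : TWG) (hgd : GDP) :
    S_MAKB := by
  classical
  intro g k J _ _ u κ cls f hg hk hPB hbal
  have hP := toPn hPB
  obtain ⟨A, hAs, hAp, hA0, hAr⟩ := hbal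
  have hnu := nu_pos hPB.pos
  have hAr' : ∀ c, ∑ c', A c c' = (nu cls c : ℝ) := hAr
  -- the number of the copies
  obtain ⟨c0, hc0⟩ : ∃ c0 : ℕ, c0 = (∏ j, f j).natDegree + 1 := ⟨_, rfl⟩
  obtain ⟨m, hm⟩ : ∃ m : ℕ, m = 2 * c0 := ⟨_, rfl⟩
  have hm1 : 1 ≤ m := by omega
  have hmR : (0 : ℝ) < m := by exact_mod_cast hm1
  have hmR1 : (1 : ℝ) ≤ m := by exact_mod_cast hm1
  have hmc : (m : ℝ) = 2 * c0 := by rw [hm]; push_cast; ring
  haveI : Fact (3 ≤ 2 * g + 1) := ⟨by omega⟩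
  haveI hJ : Nonempty J := by
    obtain ⟨c⟩ := (inferInstance : Nonempty (PR (2 * g + 1)))
    obtain ⟨j, -⟩ := hPB.pos c
    exact ⟨j⟩
  obtain ⟨T, hT1, hT2, hTU⟩ := hcmb J (fun j l => adj (cls j) (cls l))
    (fun j l => A (cls j) (cls l) / (nu cls (cls j) * nu cls (cls l))) k m hk hm1
    (fun j => Pool.Agent.Y723.JG.AdjAux.irrefl _)
    (fun j l => Pool.Agent.Y723.JG.AdjAux.symm _ _)
    (fun j l => by
      beta_reduce
      rw [hAs (cls j) (cls l), mul_comm (nu cls (cls j) : ℝ)])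
    (fun j l h => by
      have h1 := hAp _ _ h
      have h2 : (0 : ℝ) < nu cls (cls j) := by exact_mod_cast hnu _
      have h3 : (0 : ℝ) < nu cls (cls l) := by exact_mod_cast hnu _
      positivity)
    (fun j l h => by
      beta_reduce
      rw [hA0 _ _ h, zero_div])
    (fun j => row_one hPB.pos hAr' j)
    (fun j => by
      obtain ⟨c', c'', h1, h2, h3⟩ := Pool.Agent.Y723.JG.AdjAux.tri
        (by omega : 3 ≤ 2 * g + 1) (cls j)
      obtain ⟨j', rfl⟩ := hPB.pos c'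
      obtain ⟨j'', rfl⟩ := hPB.pos c''
      exact ⟨j', j'', h1, h2, h3⟩)
  refine ⟨T, hT1, hT2, fun c hc => ?_⟩
  obtain ⟨zg, hzg⟩ := exists_GoodP hgd hP.irr hP.ne c hc
  obtain ⟨zg0, hzg0⟩ := exists_GoodP hgd hP.irr hP.ne c0 (by omega)
  choose E0 zt hE0 hzt using fun i : IV J k (fun _ _ => true) =>
    htw (f i.1.1) (hP.irr.irr _) (hP.irr.deg _) (gJ u cls i) (gJ_ndvd hP i)
  refine ⟨zg + zg0 + univ.sup zt, fun z hz => ⟨hzg z (by omega), ?_⟩⟩
  have hG := hzg z (by omega)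
  have hGc0 := hzg0 z (by omega)
  have hzt' : ∀ i, zt i ≤ z := fun i => (le_sup (f := zt) (mem_univ i)).trans (by omega)
  choose Ct hCt using fun i : IV J k (fun _ _ => true) => hzt i z (hzt' i)
  have hz4 := hG.four
  choose Cm hCm0 hCm using fun j : J => mert (hP.irr.irr j) (hP.irr.deg j) (z := z) (by omega)
  obtain ⟨Cs, hCs⟩ : ∃ Cs : ℝ, Cs = ∑ j, Cm j := ⟨_, rfl⟩
  have hCs' : ∀ j, Cm j ≤ Cs := fun j => by
    rw [hCs]
    exact single_le_sum (f := Cm) (fun j _ => hCm0 j) (mem_univ j)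
  have hCs0 : 0 ≤ Cs := by rw [hCs]; exact sum_nonneg fun j _ => hCm0 j
  have hEs : ∀ i, E0 i ≤ ∑ i, E0 i := fun i =>
    single_le_sum (f := E0) (fun j _ => hE0 j) (mem_univ i)
  have hCts : ∀ i, |Ct i| ≤ ∑ i, |Ct i| := fun i =>
    single_le_sum (f := fun i => |Ct i|) (fun j _ => abs_nonneg _) (mem_univ i)
  have hE0s : 0 ≤ ∑ i, E0 i := sum_nonneg fun i _ => hE0 i
  have hC0s : 0 ≤ ∑ i, |Ct i| := sum_nonneg fun i _ => abs_nonneg _
  have h2k : (0 : ℝ) < 2 ^ k := by positivity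
  have h2k1 : (1 : ℝ) ≤ 2 ^ k := one_le_pow₀ (by norm_num)
  have h2km : (0 : ℝ) < 2 ^ k * m := by positivity
  have h2km1 : (1 : ℝ) ≤ 2 ^ k * m := one_le_mul_of_one_le_of_one_le h2k1 hmR1
  have hSl : ∀ j y, z < y → Sp (fun p => rho (f j) p) z y ≤ Real.log (Real.log y) + Cs ∧
      Real.log (Real.log y) - Cs ≤ Sp (fun p => rho (f j) p) z y := by
    intro j y hy
    have h1 := abs_le.1 (hCm j y hy)
    have h2 := hCs' j
    constructor <;> linarith [h1.1, h1.2]
  have hSpb : ∀ (i : IV J k (fun _ _ => true)) (y : ℕ),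
      Sp (fun p => bwJ f z i p / (m : ℝ)) z y =
        1 / (2 ^ k * (m : ℝ)) * Sp (fun p => rho (f i.1.1) p) z y := by
    intro i y
    have h1 : Sp (fun p => bwJ f z i p / (m : ℝ)) z y = Sp (bwJ f z i) z y / m := by
      unfold Sp
      rw [sum_div]
      exact sum_congr rfl fun p _ => by ring
    rw [h1, Sp_bwJ]
    field_simp
  have hMlow : ∀ y, z < y → (Fintype.card J : ℝ) * (Real.log (Real.log y) + Cs) ≤
      ∑ j, Sp (fun p => rho (f j) p) z y + 2 * (Fintype.card J * Cs) := by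
    intro y hy
    have h3 : ∑ j : J, (Real.log (Real.log y) - Cs) ≤ ∑ j, Sp (fun p => rho (f j) p) z y :=
      sum_le_sum fun j _ => (hSl j y hy).2
    rw [sum_const, nsmul_eq_mul, card_univ] at h3
    linarith
  -- the sums over the sets with a factor
  have hsum : ∀ (U : Finset (IV J k (fun _ _ => true) × Fin m)) (τ : J → ℝ),
      (∀ j, 0 < τ j) → ∀ y, z < y →
      ∑ i ∈ U, τ i.1.1.1 * Sp (fun p => bwJ f z i.1 p / (m : ℝ)) z y ≤
        (∑ i ∈ U, 1 / (2 ^ k * (m : ℝ)) * τ i.1.1.1) * (Real.log (Real.log y) + Cs) := by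
    intro U τ hτ y hy
    rw [sum_mul]
    refine sum_le_sum fun i _ => ?_
    rw [hSpb]
    have h1 := (hSl i.1.1.1 y hy).1
    have h2 := hτ i.1.1.1
    calc τ i.1.1.1 * (1 / (2 ^ k * (m : ℝ)) * Sp (fun p => rho (f i.1.1.1) p) z y) =
        (1 / (2 ^ k * (m : ℝ)) * τ i.1.1.1) * Sp (fun p => rho (f i.1.1.1) p) z y := by ring
      _ ≤ _ := mul_le_mul_of_nonneg_left h1 (by positivity)
  have hcase : ∀ (U : Finset (IV J k (fun _ _ => true) × Fin m)) (τ : J → ℝ),
      (∀ j, 0 < τ j) →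
      ∑ i ∈ U, 1 / (2 ^ k * (m : ℝ)) * τ i.1.1.1 < Fintype.card J →
      ∃ η C1 : ℝ, 0 < η ∧ ∀ y, z < y →
        ∑ i ∈ U, τ i.1.1.1 * Sp (fun p => bwJ f z i.1 p / (m : ℝ)) z y +
          η * Real.log (Real.log y) ≤
            (∑ j, Sp (fun p => rho (f j) p) z y + 2 * (Fintype.card J * Cs)) + C1 := by
    intro U τ hτ hlt
    refine ⟨Fintype.card J - ∑ i ∈ U, 1 / (2 ^ k * (m : ℝ)) * τ i.1.1.1, 0, by linarith,
      fun y hy => ?_⟩
    have h1 := hsum U τ hτ y hy
    have h2 := hMlow y hy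
    have h3 : (∑ i ∈ U, 1 / (2 ^ k * (m : ℝ)) * τ i.1.1.1) * Cs ≤ Fintype.card J * Cs :=
      mul_le_mul_of_nonneg_right hlt.le hCs0
    nlinarith
  obtain ⟨C, hC⟩ := hatw J (IV J k (fun _ _ => true) × Fin m) (fun x => x.1.1.1)
    (fun x p => awJ u cls f z x.1 p / m) (fun x p => bwJ f z x.1 p / m)
    (fun x y => LV (fun j l => adj (cls j) (cls l)) x.1 y.1) c z (1 / (2 ^ k * m))
    (∑ i, |Ct i| + Cs) (∑ i, E0 i)
    (fun y => ∑ j, Sp (fun p => rho (f j) p) z y + 2 * (Fintype.card J * Cs)) T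
    (by
      rintro ⟨i, r⟩ p
      refine ⟨?_, ?_⟩
      · beta_reduce
        rw [abs_div, abs_of_pos hmR]
        exact div_le_div_of_nonneg_right (awJ_abs _ _ _ _ _ _) hmR.le
      · beta_reduce
        rw [div_le_iff₀ hmR, hmc]
        unfold bwJ
        split_ifs with h1
        · have h2 : (rho (f i.1.1) p : ℝ) ≤ c0 := by
            exact_mod_cast rho_le_prod (toGp hGc0) h1.1 h1.2 i.1.1
          have h5 : (0 : ℝ) ≤ rho (f i.1.1) p := Nat.cast_nonneg _
          have h6 : (rho (f i.1.1) p : ℝ) / 2 ^ k ≤ rho (f i.1.1) p := div_le_self h5 h2k1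
          linarith
        · positivity)
    (by
      rintro ⟨i, r⟩
      unfold LV
      beta_reduce
      rw [Pool.Agent.Y723.JG.AdjAux.irrefl, Bool.false_and])
    hG.two (by positivity) hE0s hT1
    (by
      rintro ⟨i, r⟩ y hy
      beta_reduce
      rw [hSpb]
      have h1 := (hSl i.1.1 y hy).2
      have h5 : 1 / (2 ^ k * (m : ℝ)) * (Real.log (Real.log y) - Cs) ≤
          1 / (2 ^ k * (m : ℝ)) * Sp (fun p => rho (f i.1.1) p) z y :=
        mul_le_mul_of_nonneg_left h1 (by positivity)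
      have h6 : 1 / (2 ^ k * (m : ℝ)) * Cs ≤ Cs := by
        rw [one_div, inv_mul_le_iff₀ h2km]
        exact le_mul_of_one_le_left hCs0 h2km1
      linarith)
    (by
      intro y hy
      have h1 := hMlow y hy
      have h4 := loglog_nn hz4 hy
      have h5 : 0 ≤ (Fintype.card J : ℝ) * (Real.log (Real.log y) + Cs) := by positivity
      linarith)
    (by
      intro U hU
      rcases hTU U hU with ⟨t, ht, h1⟩ | ⟨h1, h2, h3⟩
      · left
        exact ⟨t, ht, hcase U t (hT1 t ht) h1⟩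
      · right
        refine ⟨fun y hy => ?_, fun t ht => ?_, h3⟩
        · have h4 := hsum U (fun _ => 1) (fun _ => one_pos) y hy
          simp only [one_mul, mul_one] at h4
          have h5 := hMlow y hy
          have h6 := loglog_nn hz4 hy
          have h7 : (∑ _i ∈ U, (1 / (2 ^ k * (m : ℝ)) : ℝ)) * (Real.log (Real.log y) + Cs) ≤
              Fintype.card J * (Real.log (Real.log y) + Cs) :=
            mul_le_mul_of_nonneg_right h1 (by linarith)
          linarith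
        · obtain ⟨θ, hθ, h4⟩ := h2 t ht
          obtain ⟨η, C1, hη, h5⟩ := hcase U (fun j => t j ^ (-θ))
            (fun j => Real.rpow_pos_of_pos (hT1 t ht j) _) h4
          exact ⟨θ, η, C1, hθ, hη, h5⟩)
    (by
      rintro ⟨i, q⟩ y r e hy hr hsq hpr
      beta_reduce
      have h1 := hCt i y r e hy hr hsq hpr
      have hlr := loglog_nonneg (by omega : 2 ≤ z) hr hpr
      have h2 : ∑ p ∈ PS z y, awJ u cls f z i p / (m : ℝ) * (Jr p r * x4 e p) / (p : ℝ) =
          (∑ p ∈ PS z y, rhoc (f i.1.1) (gJ u cls i) p *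
            (Jr p r * x4 e p) / (p : ℝ)) / (2 ^ k * m) := by
        rw [sum_div]
        refine sum_congr rfl fun p hp => ?_
        have hp' := mem_filter.1 hp
        unfold awJ
        rw [if_pos ⟨hp'.2, (mem_Ioc.1 hp'.1).1⟩]
        field_simp
      rw [h2, hSpb]
      have h3 : ∑ p ∈ PS z y, rhoc (f i.1.1) (gJ u cls i) p * (Jr p r * x4 e p) / (p : ℝ) ≤
          (∑ i, E0 i) * Real.log (Real.log r) + ∑ i, |Ct i| := by
        have := mul_le_mul_of_nonneg_right (hEs i) hlr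
        linarith [hCts i, le_abs_self (Ct i)]
      have h5 : 0 ≤ (∑ i, E0 i) * Real.log (Real.log r) + ∑ i, |Ct i| := by positivity
      have h6 : (∑ p ∈ PS z y, rhoc (f i.1.1) (gJ u cls i) p *
            (Jr p r * x4 e p) / (p : ℝ)) / (2 ^ k * m) ≤
              (∑ i, E0 i) * Real.log (Real.log r) + ∑ i, |Ct i| :=
        (div_le_div_of_nonneg_right h3 h2km.le).trans (div_le_self h5 h2km1)
      have h7 : 0 ≤ 1 / 2 * (1 / (2 ^ k * (m : ℝ)) * Sp (fun p => rho (f i.1.1) p) z y) := by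
        have := Sp_nonneg (a := fun p => (rho (f i.1.1) p : ℝ)) (fun p => Nat.cast_nonneg _) z y
        positivity
      linarith)
  refine ⟨C * Real.exp (2 * (Fintype.card J * Cs)), fun y hy => ?_⟩
  have h1 := exp_main hP hG k y T
  have h2 := hC y hy
  rw [Sp_prodJ hG, Real.exp_add] at h2
  have h4 := hmer (IV J k (fun _ _ => true)) (Fin m) (fun x p => awJ u cls f z x.1 p / m) c z y
    (fun d => Sym (LV (fun j l => adj (cls j) (cls l))) (fun _ => 1) d *
      Pool.Agent.TH344.DT.rho T (Pool.Agent.TH344.DT.nn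
        (fun i : IV J k (fun _ _ => true) => i.1.1) (Pool.Agent.TH344.DT.om d)))
  have h5 : ∀ i : IV J k (fun _ _ => true),
      (fun p => ∑ _θ : Fin m, awJ u cls f z i p / (m : ℝ)) = awJ u cls f z i := by
    intro i
    funext p
    rw [sum_const, card_univ, Fintype.card_fin, nsmul_eq_mul]
    field_simp
  simp only [h5] at h4
  refine (le_of_eq ?_).trans ((le_abs_self _).trans (h2.trans (le_of_eq (by ring))))
  refine Eq.trans ?_ (h1.trans ?_)
  · rfl
  · simp only [mul_assoc] at h4 ⊢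
    rw [← h4]
    refine sum_congr rfl fun d hd => ?_
    rw [nn_merge hd, ← Sym_merge (LV (fun j l => adj (cls j) (cls l))) (fun _ => 1) d
      fun x => Tup_ne hd x]

end Pool.Agent.Y919.PW
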